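import Mathlib

set_option autoImplicit false
open MeasureTheory
open scoped ENNReal

namespace Pool.Agent.Results.MP_97409a_pr.NoWait

/-- One step of the Kiefer-Wolfowitz recursion with `m + 1` servers. -/
noncomputable def kw {m : ℕ} (w : Fin (m + 1) → ℝ) (s t : ℝ) : Fin (m + 1) → ℝ :=
  (fun j => max (w j + (if j = 0 then s else 0) - t) 0) ∘
    Tuple.sort fun j => max (w j + (if j = 0 then s else 0) - t) 0

/-- `π` is a stationary law of the recursion with independent service and interarrival times. -/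
def Stationary {m : ℕ} (S T : Measure ℝ) (π : Measure (Fin (m + 1) → ℝ)) : Prop :=
  IsProbabilityMeasure π ∧ (π.prod (S.prod T)).map (fun p => kw p.1 p.2.1 p.2.2) = π

lemma sort_two (v : Fin (1 + 1) → ℝ) :
    v ∘ Tuple.sort v = ![min (v 0) (v 1), max (v 0) (v 1)] := by
  have h1 : v (Tuple.sort v 0) ≤ v (Tuple.sort v 1) := Tuple.monotone_sort v (by decide)
  have h2 : Tuple.sort v 0 ≠ Tuple.sort v 1 := (Tuple.sort v).injective.ne (by decide)
  have h3 : ∀ a b : Fin (1 + 1), a ≠ b → (a = 0 ∧ b = 1) ∨ (a = 1 ∧ b = 0) := by decide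
  have h4 : v (Tuple.sort v 0) = min (v 0) (v 1) ∧ v (Tuple.sort v 1) = max (v 0) (v 1) := by
    rcases h3 _ _ h2 with ⟨a, b⟩ | ⟨a, b⟩ <;> rw [a, b] at h1 ⊢
    · exact ⟨(min_eq_left h1).symm, (max_eq_right h1).symm⟩
    · exact ⟨(min_eq_right h1).symm, (max_eq_left h1).symm⟩
  funext i
  fin_cases i
  · exact h4.1
  · exact h4.2

lemma kw_two (w : Fin (1 + 1) → ℝ) (s t : ℝ) : kw w s t =
    ![min (max (w 0 + s - t) 0) (max (w 1 - t) 0), max (max (w 0 + s - t) 0) (max (w 1 - t) 0)] := by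
  rw [kw, sort_two]
  simp

lemma meas_kw : Measurable fun p : (Fin (1 + 1) → ℝ) × ℝ × ℝ => kw p.1 p.2.1 p.2.2 := by
  simp only [kw_two]
  refine measurable_pi_lambda _ fun i => ?_
  fin_cases i <;> simp <;> fun_prop

noncomputable def two {X : Type} [MeasurableSpace X] (a b : X) : Measure X :=
  (4⁻¹ : ℝ≥0∞) • Measure.dirac a + (3 / 4 : ℝ≥0∞) • Measure.dirac b

lemma w_add : (4⁻¹ : ℝ≥0∞) + 3 / 4 = 1 := by
  rw [← one_div, ENNReal.div_add_div_same]
  norm_num
  exact ENNReal.div_self (by norm_num) (by norm_num)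

instance {X : Type} [MeasurableSpace X] (a b : X) : IsProbabilityMeasure (two a b) :=
  ⟨by simp [two, w_add]⟩

lemma int_two {X : Type} [MeasurableSpace X] [MeasurableSingletonClass X] (a b : X) (f : X → ℝ) :
    Integrable f (two a b) ∧ ∫ x, f x ∂(two a b) = 1 / 4 * f a + 3 / 4 * f b := by
  have h1 : Integrable f ((4⁻¹ : ℝ≥0∞) • Measure.dirac a) :=
    (integrable_dirac (by simp)).smul_measure (by simp)
  have h2 : Integrable f ((3 / 4 : ℝ≥0∞) • Measure.dirac b) :=
    (integrable_dirac (by simp)).smul_measure (by finiteness)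
  refine ⟨h1.add_measure h2, ?_⟩
  rw [two, integral_add_measure h1 h2]
  simp

theorem result : ∃ (m : ℕ) (S T : Measure ℝ) (π : Measure (Fin (m + 1) → ℝ)) (k ρ : ℝ),
    k = m + 1 ∧ 2 ≤ k ∧ IsProbabilityMeasure S ∧ IsProbabilityMeasure T ∧
    (∀ᵐ s ∂S, 0 < s) ∧ (∀ᵐ t ∂T, 0 < t) ∧
    Integrable (fun s => s) S ∧ Integrable (fun s => s ^ 2) S ∧
    Integrable (fun t => t) T ∧ Integrable (fun t => t ^ 2) T ∧
    ρ = (∫ s, s ∂S) / (k * ∫ t, t ∂T) ∧ 1 - k⁻¹ ≤ ρ ∧ ρ < 1 ∧
    Stationary S T π ∧ Integrable (fun w => w 0) π ∧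
    2 * k ^ 2 * ρ * (1 - ρ) * (∫ t, t ∂T) * (∫ w, w 0 ∂π) <
      (1 - k * (1 - ρ)) * max ((∫ s, s ^ 2 ∂S) - (2 * k - 1) * (∫ s, s ∂S) * (∫ t, t ∂T) +
        k * (k - 1) * (∫ t, t ∂T) ^ 2) 0 := by
  refine ⟨1, two (1 / 2) 2, Measure.dirac 1, two ![0, 0] ![0, 1], 2, 13 / 16, by norm_num, le_rfl,
    inferInstance, inferInstance, ?_, by simp, (int_two _ _ _).1, (int_two _ _ _).1,
    integrable_dirac (by simp), integrable_dirac (by simp), ?_, by norm_num, by norm_num,
    ⟨inferInstance, ?_⟩, (int_two _ _ _).1, ?_⟩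
  · rw [two, ae_add_measure_iff]
    exact ⟨Measure.ae_smul_measure (by simp) _, Measure.ae_smul_measure (by simp) _⟩
  · rw [(int_two _ _ _).2, integral_dirac]
    norm_num
  · ext A hA
    rw [Measure.map_apply meas_kw hA, Measure.prod_apply (meas_kw hA)]
    have h1 : ∀ w : Fin (1 + 1) → ℝ, w 0 = 0 → w 1 ≤ 1 →
        ((two (1 / 2 : ℝ) 2).prod (Measure.dirac (1 : ℝ))) (Prod.mk w ⁻¹'
          ((fun p : (Fin (1 + 1) → ℝ) × ℝ × ℝ => kw p.1 p.2.1 p.2.2) ⁻¹' A)) =
        two ![0, 0] ![0, 1] A := by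
      intro w h0 h1
      have e1 : kw w (1 / 2) 1 = ![0, 0] := by
        rw [kw_two, h0, max_eq_right (by norm_num), max_eq_right (by linarith)]
        simp
      have e2 : kw w 2 1 = ![0, 1] := by
        rw [kw_two, h0, max_eq_left (by norm_num), max_eq_right (a := w 1 - 1) (by linarith)]
        norm_num
      rw [Measure.prod_dirac, Measure.map_apply (by fun_prop) (measurable_prodMk_left (meas_kw hA))]
      simp only [two, Measure.add_apply, Measure.smul_apply, Measure.dirac_apply, ← e1, ← e2]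
      rfl
    rw [two, lintegral_add_measure, lintegral_smul_measure, lintegral_smul_measure,
      lintegral_dirac, lintegral_dirac, h1 _ rfl (by simp), h1 _ rfl (by simp), smul_eq_mul,
      smul_eq_mul, ← add_mul, w_add, one_mul, two]
  · rw [(int_two _ _ _).2, (int_two _ _ _).2, (int_two _ _ _).2, integral_dirac]
    norm_num

end Pool.Agent.Results.MP_97409a_pr.NoWait
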